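import Pool.Agent.Lib.MP_f80667_ag.Gq.A

/-!
Varieties with a morphism to a group variety over number fields: the adelic and the completed statement.
-/

open ZC BE PE CV IsDedekindDomain NumberField

namespace GX

section loc

variable {F : Type} [Field F] {N N' k k' : ℕ} {ι ι' : Type} {f : ι → MvPolynomial (Fin N) F}
  {A : Gv F N' k' ι'} {M : Mf f A k} {K : Type} [Field K] [Algebra F K]

theorem dvS_mul {l m : ℕ} (h : DvS M K l) (h' : DvS M K m) : DvS M K (l * m) := by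
  intro z hz
  obtain ⟨y, hy, hr⟩ := h z hz
  obtain ⟨x, hx, hr'⟩ := h' y hy
  exact ⟨x, hx, by rw [hr, hr', mul_smul]⟩

theorem dvS_of {Λ : Set ℕ} (h : ∀ l ∈ Λ, l.Prime → DvS M K l) (n : ℕ)
    (hn : n ≠ 0) (hS : Sf Λ n) : DvS M K n := by
  induction n using induction_on_primes with
  | zero => exact absurd rfl hn
  | one => exact fun z hz => ⟨z, hz, (one_smul _ _).symm⟩
  | prime_mul p m hp ih =>
    exact dvS_mul (h p (hS p hp (dvd_mul_right p m)) hp)
      (ih (right_ne_zero_of_mul hn) fun l hl hd => hS l hl (hd.mul_left p))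

/-- Cycles with the same sum modulo `m` times sums have the same class modulo `m`. -/
theorem clX {m : ℕ} (h : DvS M K m) (z w : Zc (Xf f) K) (hz : Sm M m z w) :
    ∃ t : BE.Gp (Xf f) K, z.cl = w.cl + m • t := by
  obtain ⟨u, hu⟩ := hz
  let z0 : Dz (Xf f) K := z
  let w0 : Dz (Xf f) K := w
  let u0 : Dz (Xf f) K := u
  obtain ⟨z', -, h'⟩ := h (z0 - w0 - m • u0 : Dz (Xf f) K) hu
  refine ⟨z'.cl + BE.Gp.clsH (Xf f) K u0, ?_⟩
  have e3 : BE.Gp.clsH (Xf f) K (z0 - w0 - m • u0) = m • z'.cl := h'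
  have e4 : z.cl = BE.Gp.clsH (Xf f) K z0 := rfl
  have e5 : w.cl = BE.Gp.clsH (Xf f) K w0 := rfl
  rw [map_sub, map_sub, map_nsmul] at e3
  rw [e4, e5, smul_add, ← e3]
  abel

/-- `Sm` is reflexive. -/
theorem sm_refl (m : ℕ) (z : Zc (Xf f) K) : Sm M m z z := by
  refine ⟨(0 : Dz (Xf f) K), ?_⟩
  let _ : AddCommGroup ((Xf A.a).pt (AlgebraicClosure K)) := A.G.grp _
  have e : z.cy - z.cy - m • (0 : (Xf f).pt (AlgebraicClosure K) →₀ ℤ) = 0 := by
    rw [smul_zero, sub_zero, sub_self]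
  have e' : M.S (AlgebraicClosure K) (z.cy - z.cy -
      m • (0 : (Xf f).pt (AlgebraicClosure K) →₀ ℤ)) = 0 := by
    rw [e, map_zero]
  exact e'

end loc

section nf

variable {F : Type} [Field F] [NumberField F] {N N' k k' : ℕ} {ι ι' : Type}
  {f : ι → MvPolynomial (Fin N) F} {A : Gv F N' k' ι'} {M : Mf f A k} {Λ : Set ℕ}

/-- The Albanese kernel of the families is divisible by the numbers with all prime factors in `Λ`. -/
theorem famX_dv (h2 : 2 ∉ Λ)
    (h : ∀ l ∈ Λ, l.Prime → ∀ v : HeightOneSpectrum (𝓞 F), DvS M (FK F v) l)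
    (n : ℕ) (hn : n ≠ 0) (hS : Sf Λ n) (c : Fam (Xf f)) (hc : AlbX M c) :
    ∃ c' : Fam (Xf f), AlbX M c' ∧ c.cl = n • c'.cl := by
  choose g hg hg' using fun v => dvS_of (fun l hl hp => h l hl hp v) n hn hS (c.f v) (hc.1 v)
  have h3 : Odd n := by
    rw [← Nat.not_even_iff_odd, even_iff_two_dvd]
    exact fun h' => h2 (hS 2 Nat.prime_two h')
  refine ⟨(g, c.i), ⟨hg, hc.2⟩, Prod.ext (funext hg') (funext fun v => ?_)⟩
  change (c.i v).clN = n • (c.i v).clN
  obtain ⟨k, rfl⟩ := h3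
  rw [add_smul, one_smul, mul_smul, smul_comm, clN_two, smul_zero, zero_add]

/-- **The completed statement.** -/
theorem imX_sum (h2 : 2 ∉ Λ)
    (h : ∀ l ∈ Λ, l.Prime → ∀ v : HeightOneSpectrum (𝓞 F), DvS M (FK F v) l)
    (z : LHat (FA (Xf f))) : ImDeS Λ z ↔ SumX M Λ z := by
  constructor
  · rintro ⟨x, hx⟩
    refine ⟨x, fun m hm => ?_⟩
    obtain ⟨c, c', h1, h3, h4⟩ := hx m hm
    exact ⟨c, c', c', h1, h3, h4, fun v => sm_refl _ _⟩
  · rintro ⟨x, hx⟩
    refine ⟨x, fun m hm => ?_⟩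
    obtain ⟨c, c', d, h1, h3, h4, h5⟩ := hx m hm
    refine ⟨c, c', h1, h3, ?_⟩
    have h6 : Odd (m : ℕ) := by
      rw [← Nat.not_even_iff_odd, even_iff_two_dvd]
      exact fun h' => h2 (hm 2 Nat.prime_two h')
    choose g hg using fun v => clX (dvS_of (fun l hl hp => h l hl hp v) m m.ne_zero hm)
      (c'.f v) (d.f v) (h5 v)
    have h7 : ∃ t : FA (Xf f), c'.cl = d.cl + (m : ℕ) • t := by
      refine ⟨(g, fun v => (c'.i v).clN - (d.i v).clN), Prod.ext (funext hg)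
        (funext fun v => ?_)⟩
      change (c'.i v).clN = (d.i v).clN + (m : ℕ) • ((c'.i v).clN - (d.i v).clN)
      obtain ⟨k, hk⟩ := h6
      rw [hk, add_smul, one_smul, mul_smul, smul_sub, smul_sub, smul_comm 2 k, smul_comm 2 k,
        clN_two, clN_two, smul_zero, sub_self, zero_add, add_sub_cancel]
    obtain ⟨t, ht⟩ := h7
    rw [ht]
    exact rep_add h4 t

end nf

end GX
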