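import Pool.Agent.Lib.MP_f80667_ag.Gq.D

/-!
The Albanese kernel at one place.

* `zrd_deg`: a cycle with reduction `0` has degree `0`.
* `dva_dvS`, `dvk_dvN`: if the cycles with reduction `0` (and sum `0`) are divisible, the Albanese kernel (the group of the cycles of
  degree `0`) over `F_v` is `l`-divisible as soon as modulo `l` its elements are cycles with reduction `0` (and sum `0`).
-/

open ZC BE PE CV IsDedekindDomain NumberField

namespace GX

section deg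

variable {F : Type} [Field F] {N : ℕ} {ι : Type} {f : ι → MvPolynomial (Fin N) F}
  {K Ω : Type} [Field K] [CharZero K] [Field Ω] [Algebra K Ω] [Algebra F K] [Algebra F Ω]
  [IsScalarTower F K Ω] [IsAlgClosure K Ω] {L : Ld K Ω}

omit [CharZero K] in
private theorem nrh_le {r s : ℝ} (h : r ≤ s) {P P' : (Xf f).pt Ω} (hP : Nrh f L r P P') :
    Nrh f L s P P' := by
  obtain ⟨x, x', h1, h2, h3, h4, h5, h6, h7⟩ := hP
  exact ⟨x, x', h1, h2, h3, h4, h5, h6, fun i => (h7 i).trans h⟩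

private theorem srd_nrh {P P' : (Xf f).pt Ω} (h : Srd f L.V P P') :
    ∃ r, 0 ≤ r ∧ r < 1 ∧ Nrh f L r P P' := by
  obtain ⟨r, hr, h⟩ := srd_iff.1 h
  exact ⟨max 0 r, le_max_left _ _, max_lt one_pos hr, nrh_le (le_max_right _ _) h⟩

/-- To have the same reduction is an equivalence relation. -/
theorem srd_eqv (hf : Hm f) : Equivalence (Srd f L.V (Ω := Ω)) where
  refl P := by
    obtain ⟨h, -, -, -⟩ := nrh_eqv (L := L) hf (le_refl (0 : ℝ)) one_pos
    exact srd_iff.2 ⟨0, one_pos, h P⟩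
  symm {P Q} h := by
    obtain ⟨r, h0, hr1, h⟩ := srd_nrh h
    obtain ⟨-, h2, -, -⟩ := nrh_eqv (L := L) hf h0 hr1
    exact srd_iff.2 ⟨r, hr1, h2 _ _ h⟩
  trans {P Q R} h h' := by
    obtain ⟨r, h0, hr1, h⟩ := srd_nrh h
    obtain ⟨s, -, hs1, h'⟩ := srd_nrh h'
    obtain ⟨-, -, h3, -⟩ := nrh_eqv (L := L) hf (h0.trans (le_max_left r s)) (max_lt hr1 hs1)
    exact srd_iff.2 ⟨max r s, max_lt hr1 hs1,
      h3 _ _ _ (nrh_le (le_max_left _ _) h) (nrh_le (le_max_right _ _) h')⟩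

/-- A cycle with reduction `0` has degree `0`. -/
theorem zrd_deg (hf : Hm f) {z : (Xf f).pt Ω →₀ ℤ} (hz : Zrd f L.V z) :
    (Xf f).deg Ω z = 0 := by
  classical
  let s : Setoid ((Xf f).pt Ω) := ⟨Srd f L.V, srd_eqv hf⟩
  have e : (Xf f).deg Ω z = ∑ P ∈ z.support, z P := by
    rw [Vr.deg, Finsupp.liftAddHom_apply, Finsupp.sum]
    rfl
  rw [e, ← Finset.sum_fiberwise_of_maps_to
    (g := fun P => (Quotient.mk s P)) (t := z.support.image fun P => Quotient.mk s P)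
    (fun P hP => Finset.mem_image_of_mem _ hP)]
  refine Finset.sum_eq_zero fun c hc => ?_
  obtain ⟨Q, -, rfl⟩ := Finset.mem_image.1 hc
  have h3 := hz Q
  have h4 : (z.support.filter fun P => Quotient.mk s P = Quotient.mk s Q) =
      z.support.filter fun P => Srd f L.V P Q := by
    refine Finset.filter_congr fun P _ => ?_
    exact ⟨fun h => Quotient.exact h, fun h => Quotient.sound h⟩
  rw [h4]
  exact h3

end deg

section loc

variable {F : Type} [Field F] {N N' k k' : ℕ} {ι ι' : Type} {f : ι → MvPolynomial (Fin N) F}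
  {A : Gv F N' k' ι'} {M : Mf f A k} {K : Type} [Field K] [Algebra F K]

/-- The zero cycle. -/
theorem sz_zero : ∃ o : Zc (Xf f) K, o.cy = 0 ∧ Sz M o ∧ o.cl = 0 := by
  let o : Dz (Xf f) K := 0
  refine ⟨o, rfl, ?_, ?_⟩
  · let _ : AddCommGroup ((Xf A.a).pt (AlgebraicClosure K)) := A.G.grp _
    exact map_zero (M.S (AlgebraicClosure K))
  · exact map_zero (BE.Gp.clsH (Xf f) K)

theorem zrd_zero {Ω : Type} [Field Ω] [Algebra F Ω] (V : ValuationSubring Ω) :
    Zrd f V 0 := fun Q => Finset.sum_eq_zero fun _ _ => rfl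

/-- Sums of cycles. -/
theorem sz_add {z w : Zc (Xf f) K} (hz : Sz M z) (hw : Sz M w) :
    ∃ y : Zc (Xf f) K, Sz M y ∧ y.cl = z.cl + w.cl := by
  let z0 : Dz (Xf f) K := z
  let w0 : Dz (Xf f) K := w
  refine ⟨(z0 + w0 : Dz (Xf f) K), ?_, map_add (BE.Gp.clsH (Xf f) K) z0 w0⟩
  let _ : AddCommGroup ((Xf A.a).pt (AlgebraicClosure K)) := A.G.grp _
  have h1 : M.S (AlgebraicClosure K) z.cy = 0 := hz
  have h2 : M.S (AlgebraicClosure K) w.cy = 0 := hw
  have h3 : M.S (AlgebraicClosure K) (z.cy + w.cy) = 0 := by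
    rw [map_add, h1, h2, add_zero]
  exact h3

/-- Sums of classes of cycles of degree `0`. -/
theorem zc_add (z w : Zc (Xf f) K) : ∃ y : Zc (Xf f) K, y.cl = z.cl + w.cl := by
  let z0 : Dz (Xf f) K := z
  let w0 : Dz (Xf f) K := w
  exact ⟨(z0 + w0 : Dz (Xf f) K), map_add (BE.Gp.clsH (Xf f) K) z0 w0⟩

/-- Rational equivalence and classes. -/
theorem cl_of {m : ℕ} {z w : Zc (Xf f) K}
    (h : z.cy - m • w.cy ∈ (Xf f).ratEq K (AlgebraicClosure K)) : z.cl = m • w.cl := by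
  let w0 : Dz (Xf f) K := w
  have h1 : m • w.cl = BE.Gp.clsH (Xf f) K (m • w0) := (map_nsmul (BE.Gp.clsH (Xf f) K) m w0).symm
  rw [h1]
  exact BE.Gp.cls_eq.2 h

end loc

section nf

variable {F : Type} [Field F] [NumberField F] {N N' k k' : ℕ} {ι ι' : Type}
  {f : ι → MvPolynomial (Fin N) F} {A : Gv F N' k' ι'} {M : Mf f A k}
  {v : HeightOneSpectrum (𝓞 F)} {V : ValuationSubring (AlgebraicClosure (FK F v))}

/-- Cycles with reduction `0` have degree `0`. -/
theorem zrd_dz (hf : Hm f) (hV : V.comap (algebraMap (FK F v) _) = CV.Iv v)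
    {z : (Xf f).pt (AlgebraicClosure (FK F v)) →₀ ℤ} (hz : Zrd f V z) :
    (Xf f).deg _ z = 0 := by
  have hch : CharZero (FK F v) :=
    charZero_of_injective_algebraMap (algebraMap F (FK F v)).injective
  obtain ⟨L, hL⟩ := exists_ldI v
  have h1 : V.comap (algebraMap (FK F v) _) = Ok L := by
    rw [hV]
    exact SetLike.ext fun x => (hL x).symm
  obtain rfl := GM.v_uniq L V h1
  exact zrd_deg hf hz

theorem dva_dvS (hf : Hm f) (hV : V.comap (algebraMap (FK F v) _) = CV.Iv v)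
    (h : Dva M V (FK F v)) {l : ℕ} (hl : l ≠ 0) (hr : RdS M v l) : DvS M (FK F v) l := by
  intro z hz
  obtain ⟨w, z', hw, hw', hz', h2⟩ := hr V hV z hz
  obtain ⟨w', g1, g2, g3, g4⟩ := h l hl w.cy w.2.1 hw hw'
  let y : Zc (Xf f) (FK F v) := ⟨w', g1, zrd_dz hf hV g2⟩
  have h5 : Sz M y := g3
  have h6 : w.cl = l • y.cl := cl_of g4
  obtain ⟨u, hu, hu'⟩ := sz_add h5 hz'
  exact ⟨u, hu, by rw [h2, hu', smul_add, h6]⟩

theorem dvk_dvN (hf : Hm f) (hV : V.comap (algebraMap (FK F v) _) = CV.Iv v)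
    (h : Dvk f V (FK F v)) {l : ℕ} (hl : l ≠ 0) (hr : RdN f v l) : DvN f (FK F v) l := by
  intro z
  obtain ⟨w, z', hw, h2⟩ := hr V hV z
  obtain ⟨w', g1, g2, g4⟩ := h l hl w.cy w.2.1 hw
  let y : Zc (Xf f) (FK F v) := ⟨w', g1, zrd_dz hf hV g2⟩
  have h6 : w.cl = l • y.cl := cl_of g4
  obtain ⟨u, hu'⟩ := zc_add y z'
  exact ⟨u, by rw [h2, hu', smul_add, h6]⟩

end nf

end GX
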