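import Pool.Agent.Lib.MP_f80667_ag.Gq.B
import Pool.Agent.Lib.MP_f80667_ag.Gx.PjP
import Pool.Agent.Lib.MP_f80667_ag.Gx.VF

/-!
Every variety at every prime number.

* `gen_alb`: every variety. `no_frm`: varieties without global `1`-forms.
-/

open ZC BE PE CV IsDedekindDomain NumberField

namespace GX

variable {F : Type} [Field F] [NumberField F] {N : ℕ} {ι : Type}
  {f : ι → MvPolynomial (Fin N) F}

/-- There is a valuation ring above the integers of `F_v`. -/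
theorem exists_vr (v : HeightOneSpectrum (𝓞 F)) :
    ∃ V : ValuationSubring (AlgebraicClosure (FK F v)),
      V.comap (algebraMap (FK F v) _) = CV.Iv v := by
  obtain ⟨L, hL⟩ := exists_ldI v
  exact ⟨L.V, SetLike.ext hL⟩

/-- The two forms of divisibility. -/
theorem dvN_dq {K : Type} [Field K] [Algebra F K] {l : ℕ} (h : DvN f K l) :
    QS.Dq (Xf f) K (AlgebraicClosure K) l := by
  intro z hz
  let z0 : Zc (Xf f) K := ⟨z, hz⟩
  obtain ⟨w, hw⟩ := h z0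
  refine ⟨w.1, w.2, ?_⟩
  let w0 : Dz (Xf f) K := w
  have h1 : l • w.cl = BE.Gp.clsH (Xf f) K (l • w0) := (map_nsmul (BE.Gp.clsH (Xf f) K) l w0).symm
  rw [h1] at hw
  exact BE.Gp.cls_eq.1 hw

/-- **Varieties without global `1`-forms.** -/
theorem no_frm [Finite ι] {d : ℕ} (hf : Nsg f d)
    (hN : NoFrm fun i => MvPolynomial.map (algebraMap F (AlgebraicClosure F)) (f i)) :
    (∃ S : Set (HeightOneSpectrum (𝓞 F)), S.Finite ∧ ∀ l : ℕ, l.Prime →
      ((∀ v : HeightOneSpectrum (𝓞 F), DvN f (FK F v) l) ↔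
        (∀ v ∈ S, DvN f (FK F v) l) ∧ ∀ v ∉ S, RdN f v l)) ∧
      (∀ m : ℕ, m ≠ 0 → Sf (LsN f) m → ∀ c : Fam (Xf f), ∃ c' : Fam (Xf f),
        c.cl = m • c'.cl) ∧ ∀ z : LHat (FA (Xf f)), ImDeS (LsN f) z := by
  obtain ⟨m, ψ, ho, hc⟩ := hf.exists_prj
  refine ⟨⟨_, fin_all hf.hom ho hc hN, fun l hp => ⟨fun h => ⟨fun v _ => h v,
    fun v _ V _ z => ?_⟩, fun ⟨h1, h2⟩ v => ?_⟩⟩,
    QS.glob (fun h2 => h2.2.1 rfl) fun l hl hp v => dvN_dq (hl.2.2 v)⟩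
  · obtain ⟨z', hr⟩ := h v z
    let o : Dz (Xf f) (FK F v) := 0
    have ho : Zc.cl (V := Xf f) (K := FK F v) o = 0 := map_zero (BE.Gp.clsH (Xf f) (FK F v))
    exact ⟨o, z', zrd_zero V, by rw [ho, zero_add, hr]⟩
  · by_cases hv : v ∈ {v : HeightOneSpectrum (𝓞 F) |
        ¬ ∀ V : ValuationSubring (AlgebraicClosure (FK F v)),
          V.comap (algebraMap (FK F v) _) = CV.Iv v → Dvk f V (FK F v)}
    · exact h1 v hv
    · obtain ⟨V, hV⟩ := exists_vr v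
      have h3 : ∀ V : ValuationSubring (AlgebraicClosure (FK F v)),
          V.comap (algebraMap (FK F v) _) = CV.Iv v → Dvk f V (FK F v) := not_not.1 hv
      exact dvk_dvN hf.hom hV (h3 V hV) hp.ne_zero (h2 v hv)

/-- **Every variety.** -/
theorem gen_alb [Finite ι] {N' k k' d : ℕ} {ι' : Type} {A : Gv F N' k' ι'} {M : Mf f A k}
    (hf : Nsg f d) (hA : A.Ok) (hM : M.Ok) (hb : M.Alb (AlgebraicClosure F)) :
    (∃ S : Set (HeightOneSpectrum (𝓞 F)), S.Finite ∧ ∀ l : ℕ, l.Prime →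
      ((∀ v : HeightOneSpectrum (𝓞 F), DvS M (FK F v) l) ↔
        (∀ v ∈ S, DvS M (FK F v) l) ∧ ∀ v ∉ S, RdS M v l)) ∧
      (∀ m : ℕ, m ≠ 0 → Sf (LsX M) m → ∀ c : Fam (Xf f), AlbX M c →
        ∃ c' : Fam (Xf f), AlbX M c' ∧ c.cl = m • c'.cl) ∧
        ∀ z : LHat (FA (Xf f)), ImDeS (LsX M) z ↔ SumX M (LsX M) z := by
  have h2 : 2 ∉ LsX M := fun h2 => h2.2.1 rfl
  have h3 : ∀ l ∈ LsX M, l.Prime → ∀ v : HeightOneSpectrum (𝓞 F),
      DvS M (FK F v) l := fun l hl _ v => hl.2.2 v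
  refine ⟨⟨_, fin_alb hf hA hM hb, fun l hp => ⟨fun h => ⟨fun v _ => h v,
    fun v _ V _ z hz => ?_⟩, fun ⟨h1, h2⟩ v => ?_⟩⟩,
    fun m hm hS c hc => famX_dv h2 h3 m hm hS c hc, fun z => imX_sum h2 h3 z⟩
  · obtain ⟨z', hz', hr⟩ := h v z hz
    obtain ⟨o, ho, ho', ho''⟩ := sz_zero (M := M) (K := FK F v)
    exact ⟨o, z', by rw [ho]; exact zrd_zero V, ho', hz', by rw [ho'', zero_add, hr]⟩
  · by_cases hv : v ∈ {v : HeightOneSpectrum (𝓞 F) |
        ¬ ∀ V : ValuationSubring (AlgebraicClosure (FK F v)),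
          V.comap (algebraMap (FK F v) _) = CV.Iv v → Dva M V (FK F v)}
    · exact h1 v hv
    · obtain ⟨V, hV⟩ := exists_vr v
      have h3 : ∀ V : ValuationSubring (AlgebraicClosure (FK F v)),
          V.comap (algebraMap (FK F v) _) = CV.Iv v → Dva M V (FK F v) := not_not.1 hv
      exact dva_dvS hf.hom hV (h3 V hV) hp.ne_zero (h2 v hv)

end GX
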