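import Pool.Agent.Lib.MP_f80667_ag.Lv.Xp
import Pool.Agent.Lib.MP_f80667_ag.To.Ez
import Pool.Agent.Lib.MP_f80667_ag.Av.Glo
import Pool.Agent.Lib.MP_f80667_ag.Qs.Gl

/-!
The adelic Albanese kernel: definitions.

* `Sz M z`: the sum of `φ (z)` is `0`. `Sm M m z w`: the sums of `z` and `w` are congruent modulo `m` times sums.
* `DvS M K l`, `DvN f K l`: the Albanese kernel over `K`, the group of the cycles over `K` of degree `0`, are `l`-divisible.
* `RdS M v l`, `RdN f v l`: modulo `l` all elements of these groups for `F_v` are classes of cycles with reduction `0`.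
* `AlbX M c`: the sums of the family `c` are `0` at all places. `SumX M Λ z`: the sums of `z` are, at `Λ`, those of the image of an
  element of the completion of `F^1(X)`.
* `LsX M`, `LsN f`: the odd prime numbers `l` such that these groups are `l`-divisible at all finite places.
-/

open ZC BE PE IsDedekindDomain NumberField

namespace GX

variable {F : Type} [Field F] {N N' k k' : ℕ} {ι ι' : Type} {f : ι → MvPolynomial (Fin N) F}
  {A : Gv F N' k' ι'}

/-- The sum of `φ (z)` is `0`. -/
def Sz (M : Mf f A k) {K : Type} [Field K] [Algebra F K] (z : Zc (Xf f) K) : Prop :=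
  M.S (AlgebraicClosure K) z.cy = (A.G.grp (AlgebraicClosure K)).zero

/-- The sums of `z` and `w` are congruent modulo `m` times the sums of cycles of degree `0`. -/
def Sm (M : Mf f A k) {K : Type} [Field K] [Algebra F K] (m : ℕ) (z w : Zc (Xf f) K) : Prop :=
  ∃ u : Zc (Xf f) K, M.S (AlgebraicClosure K) (z.cy - w.cy - m • u.cy) =
    (A.G.grp (AlgebraicClosure K)).zero

/-- The Albanese kernel over `K` is `l`-divisible. -/
def DvS (M : Mf f A k) (K : Type) [Field K] [Algebra F K] (l : ℕ) : Prop :=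
  ∀ z : Zc (Xf f) K, Sz M z → ∃ z' : Zc (Xf f) K, Sz M z' ∧ z.cl = l • z'.cl

/-- The group of the cycles over `K` of degree `0` is `l`-divisible. -/
def DvN (f : ι → MvPolynomial (Fin N) F) (K : Type) [Field K] [Algebra F K] (l : ℕ) : Prop :=
  ∀ z : Zc (Xf f) K, ∃ z' : Zc (Xf f) K, z.cl = l • z'.cl

variable [NumberField F]

/-- Modulo `l` every element of the Albanese kernel over `F_v` is a cycle with reduction `0` and sum `0`. -/
def RdS (M : Mf f A k) (v : HeightOneSpectrum (𝓞 F)) (l : ℕ) : Prop :=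
  ∀ V : ValuationSubring (AlgebraicClosure (FK F v)), V.comap (algebraMap (FK F v) _) = CV.Iv v →
    ∀ z : Zc (Xf f) (FK F v), Sz M z → ∃ w z' : Zc (Xf f) (FK F v),
      Zrd f V w.cy ∧ Sz M w ∧ Sz M z' ∧ z.cl = w.cl + l • z'.cl

/-- Modulo `l` every cycle over `F_v` of degree `0` is a cycle with reduction `0`. -/
def RdN (f : ι → MvPolynomial (Fin N) F) (v : HeightOneSpectrum (𝓞 F)) (l : ℕ) : Prop :=
  ∀ V : ValuationSubring (AlgebraicClosure (FK F v)), V.comap (algebraMap (FK F v) _) = CV.Iv v →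
    ∀ z : Zc (Xf f) (FK F v), ∃ w z' : Zc (Xf f) (FK F v), Zrd f V w.cy ∧ z.cl = w.cl + l • z'.cl

/-- The sums are `0` at all places. -/
def AlbX (M : Mf f A k) (c : Fam (Xf f)) : Prop :=
  (∀ v, Sz M (c.f v)) ∧ ∀ v, Sz M (c.i v)

/-- The sums of `z` are, at `Λ`, those of the image of an element of the completion of `F^1(X)`. -/
def SumX (M : Mf f A k) (Λ : Set ℕ) (z : LHat (FA (Xf f))) : Prop :=
  ∃ x : LHat (BE.Gp (Xf f) F), ∀ m : ℕ+, Sf Λ m → ∃ (c : Zc (Xf f) F) (c' d : Fam (Xf f)),
    IsBcF c c' ∧ x.Rep m c.cl ∧ z.Rep m d.cl ∧ ∀ v, Sm M m (c'.f v) (d.f v)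

/-- The odd prime numbers `l` such that the Albanese kernels are `l`-divisible at all finite places. -/
def LsX (M : Mf f A k) : Set ℕ :=
  {l | l.Prime ∧ l ≠ 2 ∧ ∀ v : HeightOneSpectrum (𝓞 F), DvS M (FK F v) l}

/-- The odd prime numbers `l` such that the groups of the cycles of degree `0` are `l`-divisible at all finite places. -/
def LsN (f : ι → MvPolynomial (Fin N) F) : Set ℕ :=
  {l | l.Prime ∧ l ≠ 2 ∧ ∀ v : HeightOneSpectrum (𝓞 F), DvN f (FK F v) l}

end GX
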